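import Pool.Agent.N59.TT.Stm

/-!
# Free subgroups and virtually abelian groups: first facts
-/

set_option autoImplicit false

namespace Pool.Agent.N59.TT

theorem F2.of_inj {A B : Type} [Group A] [Group B] (g : A →* B) (hg : Function.Injective g)
    (h : F2 A) : F2 B := by
  obtain ⟨f, hf⟩ := h
  exact ⟨g.comp f, hg.comp hf⟩

theorem F2.of_surj {A B : Type} [Group A] [Group B] (g : A →* B) (hg : Function.Surjective g)
    (h : F2 B) : F2 A := by
  obtain ⟨f, hf⟩ := h
  choose k hk using fun i : Fin 2 => hg (f (FreeGroup.of i))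
  refine ⟨FreeGroup.lift k, ?_⟩
  have h1 : g.comp (FreeGroup.lift k) = f := by
    apply FreeGroup.ext_hom
    intro i
    rw [MonoidHom.comp_apply, FreeGroup.lift_apply_of, hk]
  intro x y hxy
  apply hf
  rw [← h1, MonoidHom.comp_apply, MonoidHom.comp_apply, hxy]

theorem VAb.of_surj {A B : Type} [Group A] [Group B] (g : A →* B) (hg : Function.Surjective g)
    (h : VAb A) : VAb B := by
  obtain ⟨S, hS, hc⟩ := h
  refine ⟨S.map g, ?_, ?_⟩
  · have h1 := S.index_map_dvd (f := g) hg
    exact ⟨fun h0 => hS.index_ne_zero (Nat.eq_zero_of_zero_dvd (h0 ▸ h1))⟩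
  · rintro _ ⟨x, hx, rfl⟩ _ ⟨y, hy, rfl⟩
    rw [← map_mul, ← map_mul, hc x hx y hy]

theorem VAb.of_inj {A B : Type} [Group A] [Group B] (g : A →* B) (hg : Function.Injective g)
    (h : VAb B) : VAb A := by
  obtain ⟨S, hS, hc⟩ := h
  refine ⟨S.comap g, ⟨?_⟩, ?_⟩
  · rw [Subgroup.index_comap]
    exact (inferInstance : (S.subgroupOf g.range).FiniteIndex).index_ne_zero
  intro x hx y hy
  apply hg
  rw [map_mul, map_mul, hc _ hx _ hy]

theorem VAb.top {A : Type} [Group A] (h : VAb (⊤ : Subgroup A)) : VAb A :=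
  VAb.of_surj (⊤ : Subgroup A).subtype (fun x => ⟨⟨x, trivial⟩, rfl⟩) h

theorem TT.of_injective (G H : Type) [Group G] [Group H] (f : G →* H) (hf : Function.Injective f)
    (h : TT H) : TT G := by
  intro K _ hK hF φ
  have h1 := h K hK hF (f.comp φ)
  refine VAb.of_inj ((f.comp φ.range.subtype).codRestrict (f.comp φ).range ?_) ?_ h1
  · rintro ⟨_, k, rfl⟩
    exact ⟨k, rfl⟩
  · intro x y hxy
    have h2 : f x.1 = f y.1 := congrArg Subtype.val hxy
    exact Subtype.ext (hf h2)

theorem TT.of_VAb (G : Type) [Group G] (h : VAb G) : TT G := fun _ _ _ _ φ =>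
  VAb.of_inj φ.range.subtype Subtype.val_injective h

theorem TT.int : TT (Multiplicative ℤ) :=
  TT.of_VAb _ ⟨⊤, inferInstance, fun x _ y _ => mul_comm x y⟩

/-- a homomorphism from a group of order two -/
theorem two_hom {A H : Type} [Group A] [Group H] (a : A) (ha : a ≠ 1) (h : ∀ x : A, x = 1 ∨ x = a)
    (τ : H) (hτ : τ * τ = 1) : ∃ f : A →* H, f a = τ := by
  classical
  have haa : a * a = 1 := by
    rcases h (a * a) with h1 | h1
    · exact h1
    · exact absurd (mul_eq_left.1 h1) ha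
  refine ⟨MonoidHom.mk' (fun x => if x = 1 then 1 else τ) ?_, if_neg ha⟩
  intro x y
  rcases h x with rfl | rfl
  · simp
  · rcases h y with rfl | rfl
    · simp
    · simp [ha, haa, hτ]

end Pool.Agent.N59.TT
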