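import Pool.Agent.Y110.FJ.Stm

/-!
# Finitely presented groups without free subgroups which map to groups acting on trees

Owner helper59. `TT G`: every homomorphism to `G` from a finitely presented group which contains no
nonabelian free group has a virtually abelian image.
-/

set_option autoImplicit false

namespace Pool.Agent.N59.TT

open Pool.Agent.Y110.FJ (permAut)
open scoped Pointwise

/-- `K` contains a free group of rank two -/
def F2 (K : Type) [Group K] : Prop := ∃ f : FreeGroup (Fin 2) →* K, Function.Injective f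

/-- `K` is virtually abelian -/
def VAb (K : Type) [Group K] : Prop :=
  ∃ A : Subgroup K, A.FiniteIndex ∧ ∀ x ∈ A, ∀ y ∈ A, x * y = y * x

/-- every homomorphism to `G` from a finitely presented group without free subgroups of rank two has
a virtually abelian image -/
def TT (G : Type) [Group G] : Prop :=
  ∀ (K : Type) [Group K], Group.IsFinitelyPresented K → ¬ F2 K → ∀ φ : K →* G, VAb φ.range

/-- closure properties, without free products -/
structure Cp (C : ∀ (G : Type) [Group G], Prop) : Prop where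
  int : C (Multiplicative ℤ)
  of_injective : ∀ (G H : Type) [Group G] [Group H] (f : G →* H), Function.Injective f →
    C H → C G
  prod : ∀ (G H : Type) [Group G] [Group H], C G → C H → C (G × H)
  finiteIndex : ∀ (G : Type) [Group G] (K : Subgroup G), K.FiniteIndex → C K → C G
  colim : ∀ (I : Type) [Preorder I] [Nonempty I] (_ : ∀ i j : I, ∃ k, i ≤ k ∧ j ≤ k)
    (G : I → Type) [∀ i, Group (G i)] (f : ∀ i j, i ≤ j → G i →* G j)
    (L : Type) [Group L] (g : ∀ i, G i →* L),
    (∀ i (h : i ≤ i) (x : G i), f i i h x = x) →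
    (∀ i j k (h : i ≤ j) (h' : j ≤ k) (x : G i), f j k h' (f i j h x) = f i k (h.trans h') x) →
    (∀ i j (h : i ≤ j) (x : G i), g j (f i j h x) = g i x) →
    (∀ y : L, ∃ i, ∃ x : G i, g i x = y) →
    (∀ i (x : G i), g i x = 1 → ∃ j, ∃ h : i ≤ j, f i j h x = 1) →
    (∀ i, C (G i)) → C L
  perm : ∀ (X P : Type) [Group P] [MulAction P X], C P → C (FreeGroup X ⋊[permAut X P] P)

/-! ## closure properties of `TT` -/

/-- (PRD) -/
def S_PRD : Prop := ∀ (G H : Type) [Group G] [Group H], TT G → TT H → TT (G × H)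

/-- (FIN) -/
def S_FIN : Prop := ∀ (G : Type) [Group G] (K : Subgroup G), K.FiniteIndex → TT K → TT G

/-- (COL) -/
def S_COL : Prop := ∀ (I : Type) [Preorder I] [Nonempty I] (_ : ∀ i j : I, ∃ k, i ≤ k ∧ j ≤ k)
    (G : I → Type) [∀ i, Group (G i)] (f : ∀ i j, i ≤ j → G i →* G j)
    (L : Type) [Group L] (g : ∀ i, G i →* L),
    (∀ i (h : i ≤ i) (x : G i), f i i h x = x) →
    (∀ i j k (h : i ≤ j) (h' : j ≤ k) (x : G i), f j k h' (f i j h x) = f i k (h.trans h') x) →
    (∀ i j (h : i ≤ j) (x : G i), g j (f i j h x) = g i x) →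
    (∀ y : L, ∃ i, ∃ x : G i, g i x = y) →
    (∀ i (x : G i), g i x = 1 → ∃ j, ∃ h : i ≤ j, f i j h x = 1) →
    (∀ i, TT (G i)) → TT L

/-- (FC) subgroups of free groups without free subgroups of rank two are cyclic -/
def S_FC : Prop := ∀ (X : Type) (M : Subgroup (FreeGroup X)), ¬ F2 M →
  ∃ k : FreeGroup X, M = Subgroup.zpowers k

/-- (FN) commutators which commute with both elements -/
def S_FN : Prop := ∀ (X : Type) (x y : FreeGroup X),
  x * (x * y * x⁻¹ * y⁻¹) = (x * y * x⁻¹ * y⁻¹) * x →
  y * (x * y * x⁻¹ * y⁻¹) = (x * y * x⁻¹ * y⁻¹) * y → x * y = y * x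

/-- (NEU) a finite set of points with infinite orbits can be moved off itself -/
def S_NEU : Prop := ∀ (Q X : Type) [Group Q] [MulAction Q X] (S : Finset X),
  (∀ s ∈ S, (MulAction.orbit Q s).Infinite) → ∃ q : Q, ∀ s ∈ S, q • s ∉ S

/-- (PER) extensions of free groups by permutations of the free generators -/
def S_PER : Prop := ∀ (X P : Type) [Group P] [MulAction P X], TT P →
  TT (FreeGroup X ⋊[permAut X P] P)

/-- (FP3) a free product with a factor of order at least three contains a free group -/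
def S_FP3 : Prop := ∀ (I : Type) (A : I → Type) [∀ i, Group (A i)] (i j : I), i ≠ j →
  ∀ (a a' : A i) (b : A j), a ≠ 1 → a' ≠ 1 → a ≠ a' → b ≠ 1 → F2 (Monoid.CoprodI A)

/-- (FP2) a free product with three factors of order two contains a free group -/
def S_FP2 : Prop := ∀ (I : Type) (A : I → Type) [∀ i, Group (A i)] (i j k : I), i ≠ j → i ≠ k →
  j ≠ k → ∀ (a : A i) (b : A j) (c : A k), a ≠ 1 → b ≠ 1 → c ≠ 1 →
  (∀ x : A i, x = 1 ∨ x = a) → (∀ x : A j, x = 1 ∨ x = b) → (∀ x : A k, x = 1 ∨ x = c) →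
  F2 (Monoid.CoprodI A)

/-- (DIN) a normal infinite dihedral group generated by elements fixing points -/
def S_DIN : Prop := ∀ (G V : Type) [Group G] [MulAction G V] (r r' : G) (s s' : V),
  r * r = 1 → r' * r' = 1 → r • s = s → r' • s' = s' → (∀ n : ℤ, (r * r') ^ n = 1 → n = 0) →
  (∀ g : G, ∀ x ∈ Subgroup.closure {r, r'}, g * x * g⁻¹ ∈ Subgroup.closure {r, r'}) →
  (∀ g : G, ∃ x ∈ Subgroup.closure {r, r'}, g • s = x • s ∨ g • s = x • s') →
  (∀ H : Subgroup G, (∀ g ∈ H, g • s = s ∧ g * (r * r') = (r * r') * g) → VAb H) → VAb G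

/-- (CRT) groups acting on trees, one homomorphism injective on the stabilizers of the edges -/
def S_CRT : Prop := ∀ (G V P : Type) [Group G] [MulAction G V] [Group P] (T : SimpleGraph V),
  T.IsTree → (∀ (g : G) (u v : V), T.Adj u v → T.Adj (g • u) (g • v)) → ∀ f : G →* P, TT P →
  (∀ u v : V, T.Adj u v → ∀ g : G, g • u = u → g • v = v → f g = 1 → g = 1) →
  (∀ v : V, TT (MulAction.stabilizer G v)) → TT G

/-! ## growth -/

/-- the number of elements of word length at most `n` -/
noncomputable def growth {G : Type} [Group G] (S : Finset G) (n : ℕ) : ℕ :=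
  (((S : Set G) ∪ (S : Set G)⁻¹ ∪ {1}) ^ n).ncard

/-- (GE) groups which contain free groups have exponential growth -/
def S_GE : Prop := ∀ (G : Type) [Group G] (S : Finset G), Subgroup.closure (S : Set G) = ⊤ →
  F2 G → ∃ c : ℝ, 0 < c ∧ ∀ n : ℕ, Real.exp (c * n) ≤ growth S n

/-- (GP) finitely generated virtually abelian groups have polynomial growth -/
def S_GP : Prop := ∀ (G : Type) [Group G] (S : Finset G), Subgroup.closure (S : Set G) = ⊤ →
  VAb G → ∃ D : ℕ, ∀ n : ℕ, growth S n ≤ D * (n + 1) ^ D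

/-- (TOR) finitely generated virtually abelian torsion groups are finite -/
def S_TOR : Prop := ∀ (G : Type) [Group G], Group.FG G → VAb G →
  (∀ g : G, ∃ n : ℕ, 0 < n ∧ g ^ n = 1) → Finite G

end Pool.Agent.N59.TT
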