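import Pool.Agent.N59.TT.Crt
import Pool.Agent.N654.TT_NEU
import Pool.Agent.N454.TT_FIN
import Pool.Agent.N950.TT.FP
import Pool.Agent.N490.TT_PER
import Pool.Agent.N896.TT_FC
import Pool.Agent.N11.TT_COL
import Pool.Agent.N426.TT_PRD
import Pool.Agent.N353.TT_FN
import Pool.Agent.N723.TT_DIN

/-!
# The closure properties of `TT`
-/

set_option autoImplicit false

namespace Pool.Agent.N59.TT

open SimpleGraph

theorem cp_TT : Cp TT where
  int := TT.int
  of_injective := TT.of_injective
  prod := Pool.Agent.N426.TT_PRD.main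
  finiteIndex := Pool.Agent.N454.TTFIN.main
  colim := Pool.Agent.N11.TT_COL.main
  perm := Pool.Agent.N490.TT_PER.main Pool.Agent.N896.TT_FC.main Pool.Agent.N353.TTFN.main
    Pool.Agent.N654.TT_NEU.main

theorem t_crt : S_CRT := crt cp_TT Pool.Agent.N950.TT.fp3 Pool.Agent.N950.TT.fp2
  Pool.Agent.N723.TT_DIN.main

end Pool.Agent.N59.TT
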