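import Pool.Agent.N24.TR.Tree
import Pool.Agent.N59.TT.Stm

/-!
# Groups acting on trees, for classes with the closure properties `Cp`

The proofs of `core`, `tree_closed`, `tree_local` are those of helper24 (Pool.Agent.N24.TR.Tree), which are
stated there for classes which satisfy the extension criterion.
-/

set_option autoImplicit false

namespace Pool.Agent.N59.TT

open SimpleGraph
open Pool.Agent.N24.TR hiding core tree_closed tree_local
open Pool.Agent.Y110.FJ (permAut)

theorem of_finite {C : ∀ (G : Type) [Group G], Prop} (hC : Cp C) (G : Type) [Group G]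
    (hG : Finite G) : C G := by
  have : (⊥ : Subgroup G).FiniteIndex := inferInstance
  refine hC.finiteIndex G ⊥ this ?_
  refine hC.of_injective _ _ (1 : (⊥ : Subgroup G) →* Multiplicative ℤ) ?_ hC.int
  intro x y _
  exact Subsingleton.elim x y

/-- colimit of a directed family of subgroups -/
theorem of_directed {C : ∀ (G : Type) [Group G], Prop} (hC : Cp C) (G : Type) [Group G]
    (I : Type) [Preorder I] [Nonempty I] (hI : ∀ i j : I, ∃ k, i ≤ k ∧ j ≤ k)
    (K : I → Subgroup G) (hK : Monotone K) (hg : ∀ g, ∃ i, g ∈ K i) (hc : ∀ i, C (K i)) :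
    C G := by
  refine hC.colim I hI (fun i => K i) (fun i j h => Subgroup.inclusion (hK h)) G
    (fun i => (K i).subtype) ?_ ?_ ?_ ?_ ?_ hc
  · intro i h x
    rfl
  · intro i j k h h' x
    rfl
  · intro i j h x
    rfl
  · intro y
    obtain ⟨i, hi⟩ := hg y
    exact ⟨i, ⟨y, hi⟩, rfl⟩
  · intro i x hx
    refine ⟨i, le_rfl, ?_⟩
    have : x = 1 := Subtype.ext hx
    rw [this, map_one]

section main

variable {C : ∀ (G : Type) [Group G], Prop} {G V : Type} [Group G] [MulAction G V]
  {T : SimpleGraph V}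

theorem core (hC : Cp C) (hT : T.IsTree)
    (hact : ∀ (g : G) (u v : V), T.Adj u v → T.Adj (g • u) (g • v)) (o : V)
    {P : Type} [Group P] (f : G →* P) (hP : C P)
    (hgood : ∀ g : G, ∃ p : T.Walk o (g • o), ∀ x ∈ p.support, ∀ n : G, f n = 1 → n • x = x →
      n = 1) : C G := by
  classical
  -- the parity
  have hpar : ∀ u v : V, T.Adj u v → (Multiplicative.ofAdd (1 : ZMod 2)) *
      (Multiplicative.ofAdd (1 : ZMod 2)) = 1 := by
    intro u v _
    decide
  obtain ⟨par, hpar'⟩ : ∃ par : V → V → Multiplicative (ZMod 2),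
      par = fun _ _ => Multiplicative.ofAdd (1 : ZMod 2) := ⟨_, rfl⟩
  have hp : ∀ u v, T.Adj u v → par u v * par v u = 1 := by
    intro u v h
    rw [hpar']
    exact hpar u v h
  have hpm : ∀ (g : G) (u v : V), gam hT par (g • u) (g • v) = gam hT par u v := fun g u v =>
    gam_map hT hact par hp g (MonoidHom.id _) (fun _ _ => by rw [hpar']; rfl) u v
  let τ : G →* Multiplicative (ZMod 2) := MonoidHom.mk' (fun g => gam hT par o (g • o)) (by
    intro g h
    rw [mul_smul, ← gam_mul hT par hp o (g • o) (g • h • o), hpm])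
  have hτ : ∀ (n : G) (u : V), T.Adj u (n • u) → τ n ≠ 1 := by
    intro n u h
    show gam hT par o (n • o) ≠ 1
    rw [← gam_mul hT par hp o (n • u) (n • o), ← gam_mul hT par hp o u (n • u), hpm,
      gam_adj hT par hp h, mul_right_comm, gam_mul hT par hp, gam_self hT par hp, one_mul, hpar']
    show Multiplicative.ofAdd (1 : ZMod 2) ≠ 1
    decide
  have hC2 : C (P × Multiplicative (ZMod 2)) :=
    hC.prod _ _ hP (of_finite hC _ inferInstance)
  obtain ⟨N, hN⟩ : ∃ N : Subgroup G, N = (f.prod τ).ker := ⟨_, rfl⟩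
  have hNn : N.Normal := hN ▸ inferInstance
  have hNf : ∀ n ∈ N, f n = 1 ∧ τ n = 1 := by
    intro n hn
    rw [hN, MonoidHom.mem_ker] at hn
    exact ⟨congrArg Prod.fst hn, congrArg Prod.snd hn⟩
  have hQ : C (G ⧸ N) := by
    subst hN
    exact hC.of_injective _ _ (QuotientGroup.kerLift (f.prod τ))
      (QuotientGroup.kerLift_injective _) hC2
  have hperm := hC.perm (XX N V) (G ⧸ N) hQ
  obtain ⟨Θ, hΘ⟩ : ∃ Θ : G →* FreeGroup (XX N V) ⋊[permAut (XX N V) (G ⧸ N)] (G ⧸ N),
      Θ = theta hT hact (sy (kk N)) (fun u v _ => sy_mul _ u v) o (QuotientGroup.mk' N)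
        (permAut (XX N V) (G ⧸ N)) (permAut_sy N) := ⟨_, rfl⟩
  refine hC.of_injective _ _ Θ ?_ hperm
  rw [injective_iff_map_eq_one]
  intro g hg
  have hgN : g ∈ N := by
    have h1 : (Θ g).right = 1 := by rw [hg]; rfl
    rw [hΘ] at h1
    exact (QuotientGroup.eq_one_iff g).1 h1
  have hgl : gam hT (sy (kk N)) o (g • o) = 1 := by
    have h1 : (Θ g).left = 1 := by rw [hg]; rfl
    rw [hΘ] at h1
    exact h1
  obtain ⟨p, hpg⟩ := hgood g
  have h1 : FreeGroup.IsReduced (wd (kk N) p.bypass) := by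
    refine wd_reduced (kk N) ?_ (fun x => ∀ n : G, f n = 1 → n • x = x → n = 1) ?_ p.bypass
      p.bypass_isPath (fun x hx => hpg x (p.support_bypass_subset_support hx))
    · intro u v h h2
      obtain ⟨n, hn, h3, -⟩ := kk_eq N h2
      exact hτ n u (h3 ▸ h) (hNf n hn).2
    · intro v u w hv _ _ h2
      obtain ⟨n, hn, h3, h4⟩ := kk_eq N h2
      have h5 := hv n (hNf n hn).1 h3
      rw [h5, one_smul] at h4
      exact h4
  rw [gam_eq hT _ (fun u v _ => sy_mul _ u v) p.bypass, wp_wd] at hgl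
  have h2 : wd (kk N) p.bypass = [] := by
    have h3 : (FreeGroup.mk (wd (kk N) p.bypass)).toWord = wd (kk N) p.bypass := by
      rw [FreeGroup.toWord_mk]
      exact h1.reduce_eq
    rw [← h3, hgl]
    rfl
  have h3 : g • o = o := (wd_nil (kk N) p.bypass h2).symm
  exact hpg o (Walk.start_mem_support p) g (hNf g hgN).1 h3

/-- **Groups acting on trees.** -/
theorem tree_closed (hC : Cp C) (hT : T.IsTree)
    (hact : ∀ (g : G) (u v : V), T.Adj u v → T.Adj (g • u) (g • v))
    (h : ∀ Φ : Finset V, ∃ (P : Type) (_ : Group P) (f : G →* P), C P ∧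
      ∀ v ∈ Φ, ∀ g : G, g • v = v → f g = 1 → g = 1) : C G := by
  classical
  obtain ⟨o⟩ := hT.connected.nonempty
  refine of_directed hC G (Finset G) (fun i j => ?_)
    (fun s => Subgroup.closure (s : Set G))
    (fun s t h => Subgroup.closure_mono (by exact_mod_cast h))
    (fun g => ⟨{g}, Subgroup.subset_closure (by simp)⟩) (fun S => ?_)
  · exact ⟨i ∪ j, Finset.subset_union_left, Finset.subset_union_right⟩
  obtain ⟨H, hH⟩ : ∃ H : Subgroup G, H = Subgroup.closure (S : Set G) := ⟨_, rfl⟩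
  show C (Subgroup.closure (S : Set G))
  rw [← hH]
  let w : ∀ g : G, T.Walk o (g • o) := fun g => (hT.connected.preconnected o (g • o)).some
  obtain ⟨Φ, hΦ⟩ : ∃ Φ : Finset V, Φ = insert o (S.biUnion fun s => (w s).support.toFinset) :=
    ⟨_, rfl⟩
  obtain ⟨P, _, f, hP, hf⟩ := h Φ
  have hgood : ∀ g ∈ H, ∃ p : T.Walk o (g • o), ∀ x ∈ p.support, ∃ k ∈ H, ∃ y ∈ Φ, x = k • y := by
    intro g hg
    rw [hH] at hg
    induction hg using Subgroup.closure_induction with
    | mem s hs =>
      refine ⟨w s, fun x hx => ⟨1, H.one_mem, x, ?_, (one_smul G x).symm⟩⟩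
      rw [hΦ]
      exact Finset.mem_insert_of_mem (Finset.mem_biUnion.2 ⟨s, hs, List.mem_toFinset.2 hx⟩)
    | one =>
      refine ⟨Walk.nil.copy rfl (one_smul G o).symm, fun x hx => ?_⟩
      rw [Walk.support_copy, Walk.support_nil, List.mem_singleton] at hx
      exact ⟨1, H.one_mem, o, by rw [hΦ]; exact Finset.mem_insert_self _ _, by rw [hx, one_smul]⟩
    | mul a b ha hb iha ihb =>
      obtain ⟨p, hp⟩ := iha
      obtain ⟨q, hq⟩ := ihb
      obtain ⟨q', hq'⟩ := map_walk hact a q
      refine ⟨(p.append q').copy rfl (mul_smul a b o).symm, fun x hx => ?_⟩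
      rw [Walk.support_copy, Walk.mem_support_append_iff] at hx
      rcases hx with hx | hx
      · exact hp x hx
      · obtain ⟨y, hy, rfl⟩ := hq' x hx
        obtain ⟨k, hk, z, hz, rfl⟩ := hq y hy
        exact ⟨a * k, H.mul_mem (hH ▸ ha) hk, z, hz, (mul_smul a k z).symm⟩
    | inv a ha iha =>
      obtain ⟨p, hp⟩ := iha
      obtain ⟨q', hq'⟩ := map_walk hact a⁻¹ p
      refine ⟨q'.reverse.copy (inv_smul_smul a o) rfl, fun x hx => ?_⟩
      rw [Walk.support_copy, Walk.support_reverse, List.mem_reverse] at hx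
      obtain ⟨y, hy, rfl⟩ := hq' x hx
      obtain ⟨k, hk, z, hz, rfl⟩ := hp y hy
      exact ⟨a⁻¹ * k, H.mul_mem (H.inv_mem (hH ▸ ha)) hk, z, hz, (mul_smul a⁻¹ k z).symm⟩
  refine core (G := H) hC hT (fun g u v h => hact g u v h) o (f.comp H.subtype) hP ?_
  intro g
  obtain ⟨p, hp⟩ := hgood g g.2
  refine ⟨p, fun x hx n hn hnx => ?_⟩
  obtain ⟨k, hk, y, hy, rfl⟩ := hp x hx
  have h1 : (k⁻¹ * (n : G) * k) • y = y := by
    rw [mul_smul, mul_smul]
    have h2 : (n : G) • (k • y) = k • y := hnx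
    rw [h2, inv_smul_smul]
  have h2 : f (k⁻¹ * (n : G) * k) = 1 := by
    have h3 : f (n : G) = 1 := hn
    rw [map_mul, map_mul, h3, mul_one, ← map_mul, inv_mul_cancel, map_one]
  have h3 := hf y hy _ h1 h2
  apply Subtype.ext
  show (n : G) = 1
  have h4 : (n : G) = k * (k⁻¹ * (n : G) * k) * k⁻¹ := by group
  rw [h4, h3]
  group

/-- **Groups acting on trees**, with one homomorphism for each vertex. -/
theorem tree_local (hC : Cp C) (hT : T.IsTree)
    (hact : ∀ (g : G) (u v : V), T.Adj u v → T.Adj (g • u) (g • v))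
    (h : ∀ v : V, ∃ (P : Type) (_ : Group P) (f : G →* P), C P ∧
      ∀ g : G, g • v = v → f g = 1 → g = 1) : C G := by
  classical
  refine tree_closed hC hT hact fun Φ => ?_
  induction Φ using Finset.induction_on with
  | empty =>
    exact ⟨Multiplicative ℤ, inferInstance, 1, hC.int, fun v hv => absurd hv (by simp)⟩
  | insert a Φ _ ih =>
    obtain ⟨P, _, f, hP, hf⟩ := ih
    obtain ⟨Q, _, f', hQ, hf'⟩ := h a
    refine ⟨P × Q, inferInstance, f.prod f', hC.prod _ _ hP hQ, fun v hv g hg h1 => ?_⟩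
    have h2 : f g = 1 := congrArg Prod.fst h1
    have h3 : f' g = 1 := congrArg Prod.snd h1
    rcases Finset.mem_insert.1 hv with rfl | hv
    · exact hf' g hg h3
    · exact hf v hv g hg h2

end main


end Pool.Agent.N59.TT
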