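import Pool.Agent.N59.TT.Bas
import Pool.Agent.N59.TT.Tl
import Pool.Agent.N509.TK.Tv

/-!
# Groups acting on trees, one homomorphism which is injective on the stabilizers of the edges
-/

set_option autoImplicit false

namespace Pool.Agent.N59.TT

open SimpleGraph
open Pool.Agent.N509.TK (Fam Tv Ix)

/-- involutions of the line -/
theorem inf_dih {I : Type} (A : I → Type) [∀ i, Group (A i)] (i j : I) (hij : i ≠ j)
    (hI : ∀ l, l = i ∨ l = j) (a : A i) (b : A j) (ha : a ≠ 1) (hb : b ≠ 1)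
    (h1 : ∀ x : A i, x = 1 ∨ x = a) (h2 : ∀ x : A j, x = 1 ∨ x = b) (n : ℤ)
    (hn : (Monoid.CoprodI.of a * Monoid.CoprodI.of b : Monoid.CoprodI A) ^ n = 1) : n = 0 := by
  classical
  let σ : Equiv.Perm ℤ := Equiv.neg ℤ
  let τ : Equiv.Perm ℤ := (Equiv.subLeft (1 : ℤ))
  have hσ : σ * σ = 1 := by ext x; simp [σ]
  have hτ : τ * τ = 1 := by ext x; simp [τ]
  obtain ⟨f, hf⟩ := two_hom a ha h1 σ hσ
  obtain ⟨g, hg⟩ := two_hom b hb h2 τ hτ
  have key : ∀ l, ∃ k : A l →* Equiv.Perm ℤ, (∀ h : l = i, ∀ x : A l, k x = f (h ▸ x)) ∧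
      (∀ h : l = j, ∀ x : A l, k x = g (h ▸ x)) := by
    intro l
    rcases hI l with rfl | rfl
    · exact ⟨f, fun _ _ => rfl, fun h => absurd h hij⟩
    · exact ⟨g, fun h => absurd h.symm hij, fun _ _ => rfl⟩
  choose k hk1 hk2 using key
  have h3 := congrArg (Monoid.CoprodI.lift k) hn
  rw [map_zpow, map_mul, Monoid.CoprodI.lift_of, Monoid.CoprodI.lift_of, map_one, hk1 i rfl,
    hk2 j rfl] at h3
  simp only at h3
  rw [hf, hg] at h3
  have h4 : σ * τ = Equiv.addRight (-1 : ℤ) := by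
    ext x
    simp [σ, τ]
    ring
  rw [h4] at h3
  have h5 : ∀ m : ℕ, ∀ x : ℤ, ((Equiv.addRight (-1 : ℤ)) ^ m) x = x - m := by
    intro m
    induction m with
    | zero => intro x; simp
    | succ m ih =>
      intro x
      rw [pow_succ, Equiv.Perm.mul_apply, ih]
      simp
      ring
  obtain ⟨m, rfl | rfl⟩ := n.eq_nat_or_neg
  · rw [zpow_natCast] at h3
    have h6 := h5 m 0
    rw [h3] at h6
    simp at h6
    omega
  · rw [zpow_neg, zpow_natCast, inv_eq_one] at h3
    have h6 := h5 m 0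
    rw [h3] at h6
    simp at h6
    omega

theorem crt (hC : Cp TT) (h3 : S_FP3) (h2 : S_FP2) (hD : S_DIN) : S_CRT := by
  classical
  intro G V P _ _ _ T hT hact f hP hE hV K _ hK hF φ
  obtain ⟨I, hI⟩ : ∃ I : Subgroup G, I = φ.range := ⟨_, rfl⟩
  rw [← hI]
  -- the homomorphism onto the image
  obtain ⟨ψ, hψs, hψ⟩ : ∃ ψ : K →* I, Function.Surjective ψ ∧ ∀ k, ((ψ k : I) : G) = φ k := by
    subst hI
    exact ⟨φ.rangeRestrict, φ.rangeRestrict_surjective, fun k => rfl⟩
  have hIF : ¬ F2 I := fun h => hF (h.of_surj ψ hψs)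
  have hTI : TT I → VAb I := fun h => by
    have h4 := h K hK hF ψ
    rw [MonoidHom.range_eq_top.2 hψs] at h4
    exact h4.top
  -- the image in `P`
  have hPI : VAb (f.comp φ).range := hP K hK hF (f.comp φ)
  obtain ⟨R, hRd⟩ : ∃ R : V → Subgroup I,
      R = fun v => MulAction.stabilizer I v ⊓ (f.comp I.subtype).ker := ⟨_, rfl⟩
  have hmem : ∀ v x, x ∈ R v ↔ x • v = v ∧ f (x : G) = 1 := by
    intro v x
    rw [hRd]
    exact Iff.rfl
  have hactI : ∀ (g : I) (u v : V), T.Adj u v → T.Adj (g • u) (g • v) := fun g u v h =>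
    hact g u v h
  have hR : Fam T R := by
    refine ⟨fun v r hr => ((hmem v r).1 hr).1, fun g v r hr => ?_, fun u v huv r hr hru => ?_⟩
    · rw [hmem] at hr ⊢
      refine ⟨?_, ?_⟩
      · rw [mul_smul, inv_smul_smul, mul_smul, hr.1]
      · have h4 : ((g * r * g⁻¹ : I) : G) = (g : G) * r * (g : G)⁻¹ := rfl
        rw [h4, map_mul, map_mul, hr.2, mul_one, ← map_mul, mul_inv_cancel, map_one]
    · rw [hmem] at hr
      exact Subtype.ext (hE u v huv r hru hr.1 hr.2)
  by_cases hR0 : ∀ v, R v = ⊥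
  · -- free action on the vertices
    apply hTI
    refine tree_local hC hT hactI fun v => ⟨P, inferInstance, f.comp I.subtype, hP, fun g hg hfg => ?_⟩
    have h4 : g ∈ R v := (hmem v g).2 ⟨hg, hfg⟩
    rw [hR0 v, Subgroup.mem_bot] at h4
    exact h4
  push Not at hR0
  obtain ⟨v0, hv0⟩ := hR0
  obtain ⟨S, hS⟩ := Tv.exists (R := R) hT
  obtain ⟨hsup, hinj⟩ := hS.freeProd hT hactI hR
  have hcF : ¬ F2 (Monoid.CoprodI fun i : Ix R S => R i.1) := fun h => hIF (h.of_inj _ hinj)
  obtain ⟨i0⟩ : Nonempty (Ix R S) := by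
    by_contra hcon
    rw [not_nonempty_iff] at hcon
    apply hv0
    rw [eq_bot_iff]
    refine (le_iSup R v0).trans ?_
    rw [← hsup]
    exact iSup_le fun i => isEmptyElim i
  by_cases hsub : ∀ i : Ix R S, i = i0
  · -- one factor: fixed vertex
    have h4 : (⨆ v, R v) = R i0.1 := by
      rw [← hsup]
      apply le_antisymm
      · exact iSup_le fun i => by rw [hsub i]
      · exact le_iSup (fun i : Ix R S => R i.1) i0
    obtain ⟨⟨r, hr⟩, hr1⟩ := Subgroup.ne_bot_iff_exists_ne_one.1 i0.2.2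
    have hr1' : r ≠ 1 := fun h => hr1 (Subtype.ext h)
    have hfix : ∀ g : I, g • i0.1 = i0.1 := by
      intro g
      have h5 := hR.eqv g i0.1 r hr
      have h6 : g * r * g⁻¹ ∈ R i0.1 := by
        rw [← h4]
        exact le_iSup R _ h5
      refine hR.unique hT hactI h6 ((hmem _ _).1 h5).1 ?_
      intro h7
      apply hr1'
      have h8 : r = g⁻¹ * (g * r * g⁻¹) * g := by group
      rw [h8, h7]
      group
    have hmI : ∀ k, φ k ∈ I := fun k => by
      rw [hI]
      exact ⟨k, rfl⟩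
    have h5 : ∀ k, φ k ∈ MulAction.stabilizer G i0.1 := fun k => hfix ⟨φ k, hmI k⟩
    have h6 := hV i0.1 K hK hF (φ.codRestrict _ h5)
    refine VAb.of_surj (((MulAction.stabilizer G i0.1).subtype.comp
      (Subgroup.subtype _)).codRestrict I ?_) ?_ h6
    · rintro ⟨_, k, rfl⟩
      exact hmI k
    · rintro ⟨x, hx⟩
      obtain ⟨k, hk⟩ : ∃ k, φ k = x := by
        rw [hI] at hx
        exact hx
      subst hk
      exact ⟨⟨_, k, rfl⟩, rfl⟩
  -- at least two factors
  push Not at hsub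
  obtain ⟨j0, hj0⟩ := hsub
  -- all factors have order two
  have hne : ∀ i : Ix R S, ∃ j : Ix R S, j ≠ i := by
    intro i
    by_cases h : i = i0
    · exact ⟨j0, by rw [h]; exact hj0⟩
    · exact ⟨i0, fun h' => h h'.symm⟩
  have hel : ∀ i : Ix R S, ∃ a : R i.1, a ≠ 1 := fun i => by
    obtain ⟨a, ha⟩ := Subgroup.ne_bot_iff_exists_ne_one.1 i.2.2
    exact ⟨a, ha⟩
  choose a ha using hel
  have htwo : ∀ (i : Ix R S) (x : R i.1), x = 1 ∨ x = a i := by
    intro i x
    by_contra hcon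
    push Not at hcon
    obtain ⟨j, hj⟩ := hne i
    exact hcF (h3 _ _ i j hj.symm x (a i) (a j) hcon.1 (ha i) hcon.2 (ha j))
  have honly : ∀ l : Ix R S, l = i0 ∨ l = j0 := by
    intro l
    by_contra hcon
    push Not at hcon
    exact hcF (h2 _ _ i0 j0 l hj0.symm hcon.1.symm hcon.2.symm (a i0) (a j0) (a l) (ha _) (ha _)
      (ha _) (htwo _) (htwo _) (htwo _))
  obtain ⟨r, hr⟩ : ∃ r : I, r = (a i0 : I) := ⟨_, rfl⟩
  obtain ⟨r', hr'⟩ : ∃ r' : I, r' = (a j0 : I) := ⟨_, rfl⟩
  have haa : ∀ i : Ix R S, (a i : I) * (a i : I) = 1 := by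
    intro i
    have h4 : a i * a i = 1 := by
      rcases htwo i (a i * a i) with h1 | h1
      · exact h1
      · exact absurd (mul_eq_left.1 h1) (ha i)
    exact congrArg Subtype.val h4
  have hinf : ∀ n : ℤ, (r * r') ^ n = 1 → n = 0 := by
    intro n hn
    refine inf_dih (fun i : Ix R S => R i.1) i0 j0 hj0.symm honly (a i0) (a j0) (ha _) (ha _)
      (htwo _) (htwo _) n ?_
    apply hinj
    rw [map_zpow, map_mul, Monoid.CoprodI.lift_of, Monoid.CoprodI.lift_of, map_one, ← hn, hr, hr']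
    rfl
  have hcl : Subgroup.closure {r, r'} = ⨆ v, R v := by
    rw [← hsup]
    apply le_antisymm
    · rw [Subgroup.closure_le]
      rintro x (rfl | rfl)
      · rw [hr]
        exact le_iSup (fun i : Ix R S => R i.1) i0 (a i0).2
      · rw [hr']
        exact le_iSup (fun i : Ix R S => R i.1) j0 (a j0).2
    · refine iSup_le fun l x hx => ?_
      rcases htwo l ⟨x, hx⟩ with h4 | h4
      · have h5 : x = 1 := congrArg Subtype.val h4
        rw [h5]
        exact one_mem _
      · have h5 : x = (a l : I) := congrArg Subtype.val h4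
        apply Subgroup.subset_closure
        rcases honly l with rfl | rfl
        · left; rw [h5, hr]
        · right; rw [h5, hr']; rfl
  have hnorm : (⨆ v, R v).Normal := by
    refine ⟨fun x hx g => ?_⟩
    have h1 : (⨆ v, R v) ≤ (⨆ v, R v).comap (MulAut.conj g).toMonoidHom :=
      iSup_le fun v x hx => le_iSup R (g • v) (hR.eqv g v x hx)
    exact h1 hx
  refine hD I V r r' i0.1 j0.1 (by rw [hr]; exact haa i0) (by rw [hr']; exact haa j0)
    (by rw [hr]; exact ((hmem _ _).1 (a i0).2).1) (by rw [hr']; exact ((hmem _ _).1 (a j0).2).1)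
    hinf ?_ ?_ ?_
  · intro g x hx
    rw [hcl] at hx ⊢
    exact hnorm.conj_mem x hx g
  · intro g
    obtain ⟨h, hh, s, hs, heq⟩ := hS.cover hT hactI hR (g • i0.1)
    have h5 : R s ≠ ⊥ := by
      intro h6
      have h7 := hR.eqv (h⁻¹ * g) i0.1 (a i0) (a i0).2
      have h8 : (h⁻¹ * g) • i0.1 = s := by rw [mul_smul, heq, inv_smul_smul]
      rw [h8, h6, Subgroup.mem_bot] at h7
      apply ha i0
      apply Subtype.ext
      have h9 : (a i0 : I) = (h⁻¹ * g)⁻¹ * (h⁻¹ * g * (a i0 : I) * (h⁻¹ * g)⁻¹) * (h⁻¹ * g) := by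
        group
      rw [h9, h7]
      group
      rfl
    refine ⟨h, by rw [hcl]; exact hh, ?_⟩
    rcases honly ⟨s, hs, h5⟩ with h6 | h6
    · left
      rw [heq, ← h6]
    · right
      rw [heq, ← h6]
  · intro H hH
    refine VAb.of_inj ((f.comp (I.subtype.comp H.subtype)).codRestrict (f.comp φ).range ?_) ?_ hPI
    · rintro ⟨⟨x, hx⟩, hxH⟩
      rw [hI] at hx
      obtain ⟨k, rfl⟩ := hx
      exact ⟨k, rfl⟩
    · rw [injective_iff_map_eq_one]
      rintro ⟨x, hxH⟩ hx
      have h5 : f (x : G) = 1 := congrArg Subtype.val hx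
      have h6 : x ∈ R i0.1 := (hmem _ _).2 ⟨(hH x hxH).1, h5⟩
      rcases htwo i0 ⟨x, h6⟩ with h7 | h7
      · have h8 : x = 1 := congrArg Subtype.val h7
        exact Subtype.ext h8
      · exfalso
        have h8 : x = r := by rw [hr]; exact congrArg Subtype.val h7
        have h9 := (hH x hxH).2
        rw [h8] at h9
        have hrr : r * r = 1 := by rw [hr]; exact haa i0
        have hrr' : r' * r' = 1 := by rw [hr']; exact haa j0
        have h10 : r' = r * r' * r := by
          have : r * (r * r') = r' := by rw [← mul_assoc, hrr, one_mul]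
          rw [this] at h9
          exact h9
        have h11 : (r * r') ^ (2 : ℤ) = 1 := by
          have : (r * r') ^ (2 : ℤ) = (r * r' * r) * r' := by
            rw [zpow_two]; group
          rw [this, ← h10, hrr']
        have := hinf 2 h11
        omega

end Pool.Agent.N59.TT
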