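import Pool.Agent.N59.TT.Cp
import Pool.Agent.N509.TK.Loc

/-!
# Groups acting on trees, one homomorphism for each edge, for the class `TT`

The reduction to finitely many edges is that of helper509 (Pool.Agent.N509.TK.Loc).
-/

set_option autoImplicit false

namespace Pool.Agent.N59.TT

open SimpleGraph
open Pool.Agent.N509.TK (tg tg_smul tg_reach tg_walk)

section

variable {G V : Type} {T : SimpleGraph V} [Group G] [MulAction G V]

/-- finitely many edges -/
theorem fin_hom
    (hE : ∀ u v : V, T.Adj u v → ∃ (P : Type) (_ : Group P) (f : G →* P), TT P ∧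
      ∀ g : G, g • u = u → g • v = v → f g = 1 → g = 1) (Φ : Finset (V × V))
    (hΦ : ∀ e ∈ Φ, T.Adj e.1 e.2) :
    ∃ (P : Type) (_ : Group P) (f : G →* P), TT P ∧
      ∀ e ∈ Φ, ∀ g : G, g • e.1 = e.1 → g • e.2 = e.2 → f g = 1 → g = 1 := by
  classical
  induction Φ using Finset.induction_on with
  | empty =>
    exact ⟨Multiplicative ℤ, inferInstance, 1, TT.int, fun e he => absurd he (by simp)⟩
  | insert a Φ _ ih =>
    obtain ⟨P, _, f, hP, hf⟩ := ih fun e he => hΦ e (Finset.mem_insert_of_mem he)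
    obtain ⟨Q, _, f', hQ, hf'⟩ := hE a.1 a.2 (hΦ a (Finset.mem_insert_self _ _))
    refine ⟨P × Q, inferInstance, f.prod f', cp_TT.prod _ _ hP hQ, fun e he g hg hg' h1 => ?_⟩
    have h2 : f g = 1 := congrArg Prod.fst h1
    have h3 : f' g = 1 := congrArg Prod.snd h1
    rcases Finset.mem_insert.1 he with rfl | he
    · exact hf' g hg hg' h3
    · exact hf e he g hg hg' h2

/-- **one homomorphism for each edge** -/
theorem edges (hT : T.IsTree)
    (hact : ∀ (g : G) (u v : V), T.Adj u v → T.Adj (g • u) (g • v))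
    (hV : ∀ v : V, TT ↥(MulAction.stabilizer G v))
    (hE : ∀ u v : V, T.Adj u v → ∃ (P : Type) (_ : Group P) (f : G →* P), TT P ∧
      ∀ g : G, g • u = u → g • v = v → f g = 1 → g = 1) : TT G := by
  classical
  obtain ⟨o⟩ := hT.connected.nonempty
  refine of_directed cp_TT G (Finset G) (fun i j => ?_)
    (fun s => Subgroup.closure (s : Set G))
    (fun s t h => Subgroup.closure_mono (by exact_mod_cast h))
    (fun g => ⟨{g}, Subgroup.subset_closure (by simp)⟩) (fun S => ?_)
  · exact ⟨i ∪ j, Finset.subset_union_left, Finset.subset_union_right⟩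
  obtain ⟨H, hH⟩ : ∃ H : Subgroup G, H = Subgroup.closure (S : Set G) := ⟨_, rfl⟩
  show TT (Subgroup.closure (S : Set G))
  rw [← hH]
  let w : ∀ g : G, T.Walk o (g • o) := fun g => (hT.connected.preconnected o (g • o)).some
  obtain ⟨Φ, hΦ⟩ : ∃ Φ : Finset (V × V),
      Φ = S.biUnion fun s => ((w s).darts.map fun d => d.toProd).toFinset := ⟨_, rfl⟩
  have hΦT : ∀ e ∈ Φ, T.Adj e.1 e.2 := by
    intro e he
    rw [hΦ, Finset.mem_biUnion] at he
    obtain ⟨s, -, he⟩ := he
    rw [List.mem_toFinset, List.mem_map] at he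
    obtain ⟨d, -, rfl⟩ := he
    exact d.adj
  obtain ⟨P, _, f, hP, hf⟩ := fin_hom hE Φ hΦT
  obtain ⟨T', hT'⟩ : ∃ T' : SimpleGraph V, T' = tg T H (Φ : Set (V × V)) := ⟨_, rfl⟩
  have hle : T' ≤ T := by
    rw [hT']
    intro u v h
    exact h.1
  have hreach : ∀ g ∈ H, T'.Reachable o (g • o) := by
    intro g hg
    rw [hH] at hg
    induction hg using Subgroup.closure_induction with
    | mem s hs =>
      rw [hT']
      refine tg_walk H _ (w s) fun d hd => ?_
      rw [hΦ]
      simp only [Finset.coe_biUnion, Set.mem_iUnion, Finset.mem_coe, List.mem_toFinset, List.mem_map]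
      exact ⟨s, hs, d, hd, rfl⟩
    | one =>
      rw [one_smul]
    | mul a b ha hb iha ihb =>
      rw [mul_smul]
      refine iha.trans ?_
      rw [hT'] at ihb ⊢
      exact tg_reach hact H _ (hH ▸ ha) ihb
    | inv a ha iha =>
      have h1 : T'.Reachable (a⁻¹ • o) (a⁻¹ • a • o) := by
        rw [hT'] at iha ⊢
        exact tg_reach hact H _ (H.inv_mem (hH ▸ ha)) iha
      rw [inv_smul_smul] at h1
      exact h1.symm
  have hTs : ∀ a ∈ H, ∀ x y : V, T'.Adj x y → T'.Adj (a • x) (a • y) := by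
    intro a ha x y h
    rw [hT'] at h ⊢
    exact tg_smul hact H _ ha h
  have hTa : ∀ x y : V, T'.Adj x y → ∃ h ∈ H, (h • x, h • y) ∈ Φ ∨ (h • y, h • x) ∈ Φ := by
    intro x y h
    rw [hT'] at h
    exact h.2
  obtain ⟨c, hc⟩ : ∃ c : T'.ConnectedComponent, c = T'.connectedComponentMk o := ⟨_, rfl⟩
  have hcm : ∀ x, x ∈ c.supp ↔ T'.Reachable o x := by
    intro x
    rw [hc, ConnectedComponent.mem_supp_iff, ConnectedComponent.eq]
    exact ⟨fun h => h.symm, fun h => h.symm⟩
  have hcs : ∀ (h : H) (x : V), x ∈ c.supp → (h : G) • x ∈ c.supp := by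
    intro h x hx
    rw [hcm] at hx ⊢
    refine (hreach h h.2).trans ?_
    rw [hT'] at hx ⊢
    exact tg_reach hact H _ h.2 hx
  let _ : MulAction H c.supp :=
    { smul := fun h x => ⟨(h : G) • (x : V), hcs h x x.2⟩
      one_smul := fun x => Subtype.ext (one_smul G (x : V))
      mul_smul := fun h k x => Subtype.ext (mul_smul (h : G) (k : G) (x : V)) }
  have hsm : ∀ (h : H) (x : c.supp), ((h • x : c.supp) : V) = (h : G) • (x : V) := fun _ _ => rfl
  refine t_crt H c.supp P c.toSimpleGraph
    ((hT.isAcyclic.anti hle).isTree_connectedComponent c) ?_ (f.comp H.subtype) hP ?_ ?_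
  · intro h x y hxy
    have h1 : T'.Adj (x : V) (y : V) := hxy
    exact hTs h h.2 _ _ h1
  · intro x y hxy g hgx hgy hfg
    have h1 : T'.Adj (x : V) (y : V) := hxy
    obtain ⟨k, hk, h2⟩ := hTa _ _ h1
    have hgx' : (g : G) • (x : V) = x := congrArg Subtype.val hgx
    have hgy' : (g : G) • (y : V) = y := congrArg Subtype.val hgy
    have h3 : (k * (g : G) * k⁻¹) • k • (x : V) = k • (x : V) := by
      rw [mul_smul, mul_smul, inv_smul_smul, hgx']
    have h4 : (k * (g : G) * k⁻¹) • k • (y : V) = k • (y : V) := by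
      rw [mul_smul, mul_smul, inv_smul_smul, hgy']
    have h5 : f (k * (g : G) * k⁻¹) = 1 := by
      have h6 : f (g : G) = 1 := hfg
      rw [map_mul, map_mul, h6, mul_one, ← map_mul, mul_inv_cancel, map_one]
    have h6 : k * (g : G) * k⁻¹ = 1 := by
      rcases h2 with h2 | h2
      · exact hf _ h2 _ h3 h4 h5
      · exact hf _ h2 _ h4 h3 h5
    apply Subtype.ext
    show (g : G) = 1
    have h7 : (g : G) = k⁻¹ * (k * (g : G) * k⁻¹) * k := by group
    rw [h7, h6]
    group
  · intro x
    refine TT.of_injective _ _ (((H.subtype).comp (Subgroup.subtype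
      (MulAction.stabilizer H x))).codRestrict
      (MulAction.stabilizer G (x : V)) ?_) ?_ (hV x)
    · rintro ⟨y, hy⟩
      exact congrArg Subtype.val hy
    · intro a b hab
      have h1 := congrArg Subtype.val hab
      exact Subtype.ext (Subtype.ext h1)

end

end Pool.Agent.N59.TT
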