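import Pool.Agent.N59.TT.PA
import Pool.Agent.N510.PA.Inj
import Pool.Agent.N34.PA.Pol

set_option autoImplicit false

namespace Pool.Agent.N59.TT

open Pool.Agent.Y462.SS
open Pool.Agent.N510.PA (IsPol PolActivity)

theorem cs_TT : PA.CS TT := ⟨closed_TT, star_TT⟩

/-- groups generated by automorphisms of polynomial activity -/
theorem pol_TT (X : Type) (hX : Finite X) (G : Type) [Group G] (f : G →* Equiv.Perm (List X))
    (hf : Function.Injective f) (S : Set G) (hS : Subgroup.closure S = ⊤)
    (hT : ∀ s ∈ S, IsTree (f s))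
    (hB : ∀ s ∈ S, (∃ n, IsPol n (f s)) ∨ ((Sections (f s)).Finite ∧ PolActivity (f s))) :
    TT G :=
  PA.pol_closed Pool.Agent.N510.PA.Inj.main Pool.Agent.N34.PA.Pol.main TT cs_TT X hX G f hf S hS hT hB

end Pool.Agent.N59.TT
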