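import Pool.Agent.N59.TT.Edg
import Pool.Agent.N510.PA.Star

/-!
# Star products and free products for the class `TT`

The tree of a star product is due to helper891 (Pool.Agent.N510.PA.Star).
-/

set_option autoImplicit false

namespace Pool.Agent.N59.TT

open Pool.Agent.N510.PA (IsSP)
open Pool.Agent.N510.PA.Star (va vb va_eq vb_eq smul_va smul_vb isTree TT_smul inter)

/-- the class `C` contains a star product if it contains the vertex groups and if for every edge there is
a homomorphism to a group in the class which is injective on the edge group -/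
def SStar (C : ∀ (G : Type) [Group G], Prop) : Prop :=
  ∀ (J A W : Type) (L E : J → Type) [Group A] [Group W] [∀ j, Group (L j)]
  [∀ j, Group (E j)] (k : ∀ j, E j →* A) (l : ∀ j, E j →* L j) (a : A →* W) (b : ∀ j, L j →* W),
  IsSP k l a b → Function.Injective a → (∀ j, Function.Injective (b j)) →
  C A → (∀ j, C (L j)) →
  (∀ j, ∃ (P : Type) (_ : Group P) (f : W →* P), C P ∧ ∀ e : E j, f (a (k j e)) = 1 → a (k j e) = 1) →
  C W

/-- a subgroup which is conjugate into a group in the class is in the class -/
theorem of_conj {W : Type} [Group W]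
    (S H : Subgroup W) (w : W) (hS : ∀ g ∈ S, w⁻¹ * g * w ∈ H) (hH : TT H) : TT S := by
  let f : S →* H := MonoidHom.codRestrict ((MulAut.conj w⁻¹).toMonoidHom.comp S.subtype) H
    (fun g => by simpa using hS g g.2)
  refine TT.of_injective S H f ?_ hH
  intro x y hxy
  have h1 : ((f x : H) : W) = f y := by rw [hxy]
  have h2 : (MulAut.conj w⁻¹) (x : W) = (MulAut.conj w⁻¹) (y : W) := h1
  exact Subtype.ext ((MulAut.conj w⁻¹).injective h2)

theorem of_range {A W : Type} [Group A]
    [Group W] (a : A →* W) (ha : Function.Injective a) (hA : TT A) : TT a.range :=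
  TT.of_injective a.range A (a.ofInjective ha).symm.toMonoidHom
    (a.ofInjective ha).symm.injective hA

theorem star_TT : SStar TT := by
  intro J A W L E _ _ _ _ k l a b h ha hb hA hL hP
  refine edges (isTree h) TT_smul ?_ ?_
  · intro v
    rcases v with v | ⟨j, v⟩
    · obtain ⟨w, rfl⟩ := QuotientGroup.mk_surjective v
      refine of_conj _ a.range w (fun g hg => ?_) (of_range a ha hA)
      have h1 : g • va a b w = va a b w := hg
      rw [smul_va, eq_comm, va_eq, ← mul_assoc] at h1
      exact h1
    · obtain ⟨w, rfl⟩ := QuotientGroup.mk_surjective v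
      refine of_conj _ (b j).range w (fun g hg => ?_) (of_range (b j) (hb j) (hL j))
      have h1 : g • vb a b j w = vb a b j w := hg
      rw [smul_vb, eq_comm, vb_eq, ← mul_assoc] at h1
      exact h1
  · have key : ∀ (w : W) (j : J), ∃ (P : Type) (_ : Group P) (f : W →* P), TT P ∧
        ∀ g : W, g • va a b w = va a b w → g • vb a b j w = vb a b j w → f g = 1 → g = 1 := by
      intro w j
      obtain ⟨P, _, f, hCP, hf⟩ := hP j
      refine ⟨P, inferInstance, f, hCP, fun g h1 h2 h3 => ?_⟩
      rw [smul_va, eq_comm, va_eq, ← mul_assoc] at h1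
      rw [smul_vb, eq_comm, vb_eq, ← mul_assoc] at h2
      obtain ⟨e, he⟩ := inter h j _ h1 h2
      have he' : a (k j e) = w⁻¹ * g * w := he
      have h4 : f (a (k j e)) = 1 := by
        rw [he', map_mul, map_mul, h3, mul_one, ← map_mul, inv_mul_cancel, map_one]
      have h5 := hf e h4
      rw [he'] at h5
      have h6 : g = w * (w⁻¹ * g * w) * w⁻¹ := by group
      rw [h6, h5, mul_one, mul_inv_cancel]
    rintro u v ⟨w, j, ⟨rfl, rfl⟩ | ⟨rfl, rfl⟩⟩
    · exact key w j
    · obtain ⟨P, i, f, h1, h2⟩ := key w j
      exact ⟨P, i, f, h1, fun g h3 h4 => h2 g h4 h3⟩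

theorem coprod_TT (A B : Type) [Group A] [Group B] (hA : TT A) (hB : TT B) :
    TT (Monoid.Coprod A B) := by
  have hsp : IsSP (J := Unit) (L := fun _ => B) (E := fun _ => Unit) (fun _ => (1 : Unit →* A))
      (fun _ => (1 : Unit →* B)) (Monoid.Coprod.inl : A →* Monoid.Coprod A B)
      (fun _ => (Monoid.Coprod.inr : B →* Monoid.Coprod A B)) := by
    refine ⟨fun _ e => by simp, ?_, ?_⟩
    · have h1 := Monoid.Coprod.range_inl_sup_range_inr (G := A) (H := B)
      rw [eq_top_iff, ← h1]
      refine sup_le ?_ ?_
      · intro x hx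
        exact Subgroup.subset_closure (Or.inl hx)
      · intro x hx
        exact Subgroup.subset_closure (Or.inr (Set.mem_iUnion.2 ⟨(), hx⟩))
    · intro H _ f g _
      exact ⟨Monoid.Coprod.lift f (g ()), fun x => Monoid.Coprod.lift_apply_inl _ _ _,
        fun _ x => Monoid.Coprod.lift_apply_inr _ _ _⟩
  exact star_TT Unit A _ _ _ _ _ _ _ hsp Monoid.Coprod.inl_injective
    (fun _ => Monoid.Coprod.inr_injective) hA (fun _ => hB)
    (fun _ => ⟨Multiplicative ℤ, inferInstance, 1, TT.int, fun e _ => by simp⟩)

/-- **the closure properties** -/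
theorem closed_TT : Pool.Agent.Y462.SS.Closed TT where
  int := cp_TT.int
  of_injective := cp_TT.of_injective
  prod := cp_TT.prod
  coprod := coprod_TT
  finiteIndex := cp_TT.finiteIndex
  colim := cp_TT.colim

end Pool.Agent.N59.TT
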