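import Pool.Agent.N510.PA.Fin
import Pool.Agent.N59.TT.Str

/-!
# The theorem on automorphisms of polynomial activity, for classes closed under star products

The proofs are those of helper510 (Pool.Agent.N510.PA), which are stated there for classes which satisfy the
extension criterion; they use it only through the closure under star products (`SStar`).
-/

set_option autoImplicit false
set_option linter.unusedSectionVars false
set_option linter.unusedVariables false

open Classical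

namespace Pool.Agent.N59.TT.PA

open Pool.Agent.Y331.SS (Kn Kn_zero mem_Kn_succ Kn_mono dies_iff C_Kn wmap wmap_s wmap_p t_lim)
open Pool.Agent.Y462.SS hiding psi psi_iA iA dl dl_mul psi_dl_s_ray psi_dl_s_off psi_dl_p EN
  tau_iA dl_eq_one dies_of_tau
open Pool.Agent.Y524L hiding Rel Gm pr pr_surjective iA iP iA_eq_iP shP psiA psiP psi0 psi0_rel psi
  psi_pr psi_iA psi_iP cT dl dl_mul root_cT sec_cT_ray sec_cT_off psi_cT_p psi_cT_s psi_dl_p
  psi_dl_s_ray psi_dl_s_off EN tau_iA act_dl tau_dl dies_of_tau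
open Pool.Agent.N510.PA hiding C_star star_nxt base_star St_step St_one St_all C_cov C_HH_all
  pol_closed
open Pool.Agent.N59.TT (SStar)

/-- closed under `Closed` and star products -/
structure CS (C : ∀ (G : Type) [Group G], Prop) : Prop where
  base : Closed C
  star : SStar C

section sta

variable {X : Type} [Finite X] (d : X) {H' H : Subgroup (T X)} (hP : Pair d H' H)
variable {J : Type} {R M : J → Subgroup (T X)}
variable {C : ∀ (G : Type) [Group G], Prop}

/-- the star product with the quotient of the cover is in the class -/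
theorem C_star (hinj : S_INJ) (hC : CS C) (hΓ : C (Gm d H' H))
    (hM : ∀ j, C (M j)) (hR : ∀ j, R j ≤ H) (hRM : ∀ j, R j ≤ M j) {i : ℕ}
    (h : Dat d hP R M C i) :
    C (FP (Gm d H' H) (FE d M) ⧸ Subgroup.normalClosure (SR (FEk d H' hR) (FEi d hRM)
      (fun j => ((⊤ : Subgroup (FE d R j)) : Set (FE d R j))) (Kn (psi d hP) i : Set (Gm d H' H)))) := by
  obtain ⟨Q, _, f, c, e, hQ, hf, hc, he, h1, h2⟩ := h
  have hsp := isSP_quot (FEk d H' hR) (FEi d hRM) (fun j => (⊤ : Subgroup (FE d R j)))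
    (Kn (psi d hP) i)
  have hk : ∀ x, Function.Injective (((QuotientGroup.mk' (Kn (psi d hP) i)).comp
      (FEk d H' hR x)).comp (⊤ : Subgroup (FE d R x)).subtype) := by
    intro x
    rw [injective_iff_map_eq_one]
    intro y hy
    have h3 : FEk d H' hR x y.1 ∈ Kn (psi d hP) i := (QuotientGroup.eq_one_iff _).1 hy
    exact Subtype.ext (FEk_eq_one d hP hR hRM x y.1 (tau_of_Kn d hP h3))
  have hl : ∀ x, Function.Injective ((FEi d hRM x).comp (⊤ : Subgroup (FE d R x)).subtype) :=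
    fun x => (FEi_inj d hRM x).comp Subtype.val_injective
  obtain ⟨ha, hb⟩ := hinj _ _ _ _ _ _ _ _ _ hsp hk hl
  obtain ⟨F, hF1, hF2⟩ := SR_lift (FEk d H' hR) (FEi d hRM)
    (fun j => ((⊤ : Subgroup (FE d R j)) : Set (FE d R j))) (Kn (psi d hP) i : Set (Gm d H' H))
    f (FEh d c e) hf (by
      rintro ⟨j, b⟩ y -
      cases b with
      | true => exact (h1 j ⟨y.1, PH_mono d (hRM j) y.2⟩ ⟨y.1, PH_mono d (hR j) y.2⟩ rfl y.2).symm
      | false => exact (h2 j ⟨y.1, hRM j y.2⟩ ⟨y.1, hR j y.2⟩ rfl y.2).symm)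
  refine hC.star _ _ _ _ _ _ _ _ _ hsp ha hb
    (C_Kn Pool.Agent.Y812.SS.t_wr C hC.base (psi d hP) hΓ i) (C_FE d hC.base hM) fun x => ?_
  refine ⟨Q, inferInstance, F, hQ, fun y hy => ?_⟩
  rw [hsp.comm] at hy ⊢
  have h3 : FEh d c e x (FEi d hRM x y.1) = 1 := (hF2 x _).symm.trans hy
  have h4 : FEi d hRM x y.1 = 1 := FEh_inj d hc he x (h3.trans (map_one _).symm)
  change lef _ _ _ _ x (FEi d hRM x y.1) = 1
  rw [h4, map_one]

/-- **the star product with the next group as centre** -/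
theorem star_nxt (hinj : S_INJ) (hC : CS C) (hΓ : C (Gm d H' H))
    (hMC : ∀ j, C (M j)) (hR : ∀ j, R j ≤ H) (hRM : ∀ j, R j ≤ M j) (hRl : ∀ j, LC (R j))
    (hMl : ∀ j, LC (M j)) (h : Dat d hP R M C 0) :
    ∃ (Q : Type) (_ : Group Q) (α : nxt d hP →* Q) (c : ∀ j, PH d (M j) →* Q)
      (e : ∀ j, M j →* Q), C Q ∧ Function.Injective α ∧
      (∀ j, Function.Injective (c j)) ∧ (∀ j, Function.Injective (e j)) ∧
      (∀ j (p : PH d (M j)) (g : nxt d hP), p.1 ∈ PH d (R j) →
        g.1 = dT d (cr d) p.1 (cr d) → c j p = α g) ∧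
      (∀ j (h : M j) (g : nxt d hP), h.1 ∈ R j → g.1 = h.1 → e j h = α g) := by
  have hall : ∀ i, Dat d hP R M C i := by
    intro i
    induction i with
    | zero => exact h
    | succ i ih => exact ih.succ d hP hC.base hRl hMl
  obtain ⟨S, hS⟩ : ∃ S : ℕ → Set (FP (Gm d H' H) (FE d M)), S = fun i =>
    SR (FEk d H' hR) (FEi d hRM) (fun j => ((⊤ : Subgroup (FE d R j)) : Set (FE d R j)))
      (Kn (psi d hP) i : Set (Gm d H' H)) := ⟨_, rfl⟩
  have hSm : Monotone S := by
    intro i j hij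
    rw [hS]
    exact SR_mono (fun _ => subset_rfl) (Kn_mono _ hij)
  have hSU : (⋃ i, S i) = SR (FEk d H' hR) (FEi d hRM)
      (fun j => ((⊤ : Subgroup (FE d R j)) : Set (FE d R j)))
      ((tau (psi d hP)).ker : Set (Gm d H' H)) := by
    rw [hS]
    apply subset_antisymm
    · exact Set.iUnion_subset fun i => SR_mono (fun _ => subset_rfl)
        (fun γ hγ => tau_of_Kn d hP hγ)
    · rintro x (⟨γ, hγ, rfl⟩ | hx)
      · obtain ⟨n, hn⟩ := (dies_iff (psi d hP) γ).1 (dies_of_tau d hP hγ)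
        exact Set.mem_iUnion.2 ⟨n, Or.inl ⟨γ, hn, rfl⟩⟩
      · exact Set.mem_iUnion.2 ⟨0, Or.inr hx⟩
  have hW : C (FP (Gm d H' H) (FE d M) ⧸ Subgroup.normalClosure (⋃ i, S i)) := by
    refine quot_colim hC.base (fun i j => ⟨max i j, le_max_left _ _, le_max_right _ _⟩) S hSm
      fun i => ?_
    rw [hS]
    exact C_star d hP hinj hC hΓ hMC hR hRM (hall i)
  rw [hSU] at hW
  obtain ⟨F, hF1, hF2⟩ := SR_lift (FEk d H' hR) (FEi d hRM)
    (fun j => ((⊤ : Subgroup (FE d R j)) : Set (FE d R j)))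
    ((tau (psi d hP)).ker : Set (Gm d H' H)) (tau (psi d hP))
    (FEh d (fun j => toT d (M j)) (fun j => (M j).subtype)) (fun γ hγ => hγ)
    (fun x y _ => tau_FEk d hP hR hRM x y)
  obtain ⟨g0, hg0⟩ : ∃ g0 : Gm d H' H →* FP (Gm d H' H) (FE d M) ⧸ Subgroup.normalClosure
      (SR (FEk d H' hR) (FEi d hRM) (fun j => ((⊤ : Subgroup (FE d R j)) : Set (FE d R j)))
      ((tau (psi d hP)).ker : Set (Gm d H' H))),
      g0 = (QuotientGroup.mk' _).comp Monoid.Coprod.inl := ⟨_, rfl⟩
  have hker : (tau (psi d hP)).rangeRestrict.ker ≤ g0.ker := by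
    intro γ hγ
    have h3 : tau (psi d hP) γ = 1 := by
      rw [MonoidHom.mem_ker] at hγ
      exact congrArg Subtype.val hγ
    rw [hg0]
    exact (QuotientGroup.eq_one_iff _).2 (Subgroup.subset_normalClosure (Or.inl ⟨γ, h3, rfl⟩))
  obtain ⟨α, hα⟩ : ∃ α : nxt d hP →* _, ∀ γ : Gm d H' H, ∀ g : nxt d hP,
      tau (psi d hP) γ = g.1 → α g = g0 γ := by
    refine ⟨(tau (psi d hP)).rangeRestrict.liftOfSurjective
      (tau (psi d hP)).rangeRestrict_surjective ⟨g0, hker⟩, fun γ g hg => ?_⟩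
    have h3 : g = (tau (psi d hP)).rangeRestrict γ := Subtype.ext hg.symm
    rw [h3]
    exact MonoidHom.liftOfRightInverse_comp_apply _ _ _ ⟨g0, hker⟩ γ
  have hαF : ∀ g : nxt d hP, F (α g) = g.1 := by
    rintro ⟨_, γ, rfl⟩
    rw [hα γ _ rfl, hg0]
    exact hF1 γ
  have hrel : ∀ x (y : FE d R x), g0 (FEk d H' hR x y) = QuotientGroup.mk
      (ofL (Gm d H' H) x (FEi d hRM x y)) := by
    intro x y
    rw [hg0, ← mul_inv_eq_one, ← QuotientGroup.mk_inv]
    exact (QuotientGroup.eq_one_iff _).2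
      (Subgroup.subset_normalClosure (Or.inr ⟨x, y, trivial, rfl⟩))
  refine ⟨_, inferInstance, α,
    fun j => (QuotientGroup.mk' _).comp (ofL (L := FE d M) (Gm d H' H) (j, true)),
    fun j => (QuotientGroup.mk' _).comp (ofL (L := FE d M) (Gm d H' H) (j, false)),
    hW, ?_, ?_, ?_, ?_, ?_⟩
  · intro a b hab
    apply Subtype.ext
    rw [← hαF a, ← hαF b, hab]
  · intro j a b hab
    have h3 := congrArg F hab
    exact toT_inj d (M j) ((hF2 (j, true) a).symm.trans (h3.trans (hF2 (j, true) b)))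
  · intro j a b hab
    have h3 := congrArg F hab
    exact Subtype.ext ((hF2 (j, false) a).symm.trans (h3.trans (hF2 (j, false) b)))
  · intro j p g hp hg
    have h3 := hrel (j, true) (⟨p.1, hp⟩ : PH d (R j))
    rw [hα (FEk d H' hR (j, true) (⟨p.1, hp⟩ : PH d (R j))) g, h3]
    · rfl
    · rw [hg]
      exact tau_iP d hP _
  · intro j h g hh hg
    have h3 := hrel (j, false) (⟨h.1, hh⟩ : R j)
    rw [hα (FEk d H' hR (j, false) (⟨h.1, hh⟩ : R j)) g, h3]
    · rfl
    · rw [hg]
      exact tau_iA d hP _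


end sta

section bas

variable {X : Type} [Finite X] (d : X)
variable {J : Type} {R M : J → Subgroup (T X)}
variable {C : ∀ (G : Type) [Group G], Prop}

/-- **star products over locally finite groups** -/
theorem base_star (hinj : S_INJ) (hC : CS C) {H : Subgroup (T X)}
    (hP : Pair d (Fn X) H) (hH : C H) (hMC : ∀ j, C (M j)) (hM : ∀ j, Fn X ≤ M j) :
    ∃ (Q : Type) (_ : Group Q) (α : H →* Q) (c : ∀ j, PH d (M j) →* Q)
      (e : ∀ j, M j →* Q), C Q ∧ Function.Injective α ∧
      (∀ j, Function.Injective (c j)) ∧ (∀ j, Function.Injective (e j)) ∧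
      (∀ j (p : PH d (M j)) (g : H), p.1 ∈ PH d (Fn X) →
        g.1 = dT d (cr d) p.1 (cr d) → c j p = α g) ∧
      (∀ j (h : M j) (g : H), h.1 ∈ Fn X → g.1 = h.1 → e j h = α g) := by
  refine finish (R := fun _ => Fn X) d H.subtype (bk d hP) hM (bk_eq d hP hM) ?_ H
    H.range_subtype
  have hker : (H.subtype.ker : Set H) = ((⊥ : Subgroup H) : Set H) := by
    rw [H.ker_subtype]
  rw [hker]
  obtain ⟨S, hS⟩ : ∃ S : Finset (Σ x : J × Bool, FE d (fun _ : J => Fn X) x) →
      Set (FP H (FE d M)), S = fun s =>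
    SR (bk d hP) (FEi d hM) (fun x => ((Subgroup.closure {y | (⟨x, y⟩ :
      Σ x : J × Bool, FE d (fun _ : J => Fn X) x) ∈ s} :
      Subgroup (FE d (fun _ : J => Fn X) x)) : Set (FE d (fun _ : J => Fn X) x)))
      ((⊥ : Subgroup H) : Set H) := ⟨_, rfl⟩
  have hSm : Monotone S := by
    intro s t hst
    rw [hS]
    exact SR_mono (fun x => Subgroup.closure_mono fun y hy => hst hy) subset_rfl
  have hSU : (⋃ s, S s) = SR (bk d hP) (FEi d hM) (fun _ => Set.univ)
      ((⊥ : Subgroup H) : Set H) := by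
    rw [hS]
    apply subset_antisymm
    · exact Set.iUnion_subset fun i => SR_mono (fun _ => Set.subset_univ _) subset_rfl
    · rintro z (⟨γ, hγ, rfl⟩ | ⟨x, y, -, rfl⟩)
      · exact Set.mem_iUnion.2 ⟨∅, Or.inl ⟨γ, hγ, rfl⟩⟩
      · refine Set.mem_iUnion.2 ⟨{⟨x, y⟩}, Or.inr ⟨x, y, ?_, rfl⟩⟩
        exact Subgroup.subset_closure (Finset.mem_singleton_self _)
  rw [← hSU]
  refine quot_colim hC.base (fun i j => ⟨i ∪ j, Finset.subset_union_left,
    Finset.subset_union_right⟩) S hSm fun s => ?_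
  rw [hS]
  obtain ⟨E, hE⟩ : ∃ E : ∀ x : J × Bool, Subgroup (FE d (fun _ : J => Fn X) x),
    E = fun x => Subgroup.closure {y | (⟨x, y⟩ :
      Σ x : J × Bool, FE d (fun _ : J => Fn X) x) ∈ s} := ⟨_, rfl⟩
  have hEf : ∀ x, Finite (E x) := by
    intro x
    rw [hE]
    refine lf_FE d x _ ?_
    exact Set.Finite.preimage (sigma_mk_injective.injOn) s.finite_toSet
  have hEe : (fun x => ((Subgroup.closure {y | (⟨x, y⟩ :
      Σ x : J × Bool, FE d (fun _ : J => Fn X) x) ∈ s} :
      Subgroup (FE d (fun _ : J => Fn X) x)) : Set (FE d (fun _ : J => Fn X) x))) =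
      fun x => (E x : Set (FE d (fun _ : J => Fn X) x)) := by
    rw [hE]
  change C (FP H (FE d M) ⧸ Subgroup.normalClosure (SR (bk d hP) (FEi d hM) (fun x =>
    ((Subgroup.closure {y | (⟨x, y⟩ :
      Σ x : J × Bool, FE d (fun _ : J => Fn X) x) ∈ s} :
      Subgroup (FE d (fun _ : J => Fn X) x)) : Set (FE d (fun _ : J => Fn X) x)))
      ((⊥ : Subgroup H) : Set H)))
  rw [hEe]
  have hsp := isSP_quot (bk d hP) (FEi d hM) E (⊥ : Subgroup H)
  have hbot : Function.Injective (QuotientGroup.mk' (⊥ : Subgroup H)) := by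
    rw [injective_iff_map_eq_one]
    intro a ha
    exact Subgroup.mem_bot.1 ((QuotientGroup.eq_one_iff a).1 ha)
  obtain ⟨ha, hb⟩ := hinj _ _ _ _ _ _ _ _ _ hsp
    (fun x => (hbot.comp (bk_inj (M := M) d hP hM x)).comp Subtype.val_injective)
    (fun x => (FEi_inj d hM x).comp Subtype.val_injective)
  obtain ⟨F, hF1, hF2⟩ := SR_lift (bk d hP) (FEi d hM)
    (fun x => (E x : Set (FE d (fun _ : J => Fn X) x))) ((⊥ : Subgroup H) : Set H)
    H.subtype (FEh d (fun j => toT d (M j)) (fun j => (M j).subtype))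
    (fun γ hγ => by rw [Subgroup.mem_bot.1 hγ, map_one])
    (fun x y _ => bk_eq d hP hM x y)
  refine hC.star _ _ _ _ _ _ _ _ _ hsp ha hb ?_ (C_FE d hC.base hMC) fun x => ?_
  · refine hC.base.of_injective _ _
      (QuotientGroup.lift (⊥ : Subgroup H) (MonoidHom.id H) fun y hy => Subgroup.mem_bot.1 hy)
      ?_ hH
    rw [injective_iff_map_eq_one]
    intro a ha
    obtain ⟨y, rfl⟩ := QuotientGroup.mk_surjective a
    have h1 : y = 1 := ha
    rw [h1]
    rfl
  · have := hEf x
    have := Fintype.ofFinite (E x)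
    obtain ⟨Y, hY, ρ, hρ⟩ := Pool.Agent.Y510.LA.t_lvl X ((Finset.univ : Finset (E x)).image
      fun y => FEh d (fun j => toT d (M j)) (fun j => (M j).subtype) x (FEi d hM x y.1))
    refine ⟨Equiv.Perm Y, inferInstance, ρ.comp F,
      Pool.Agent.Y430.SS.of_finite hC.base _ inferInstance, fun y hy => ?_⟩
    rw [hsp.comm] at hy ⊢
    have h1 : F (lef (bk d hP) (FEi d hM) (fun x => (E x : Set (FE d (fun _ : J => Fn X) x)))
        ((⊥ : Subgroup H) : Set H) x (FEi d hM x y.1)) =
        FEh d (fun j => toT d (M j)) (fun j => (M j).subtype) x (FEi d hM x y.1) := hF2 x _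
    have h2 := hρ _ (Finset.mem_image_of_mem _ (Finset.mem_univ y)) (by
      rw [← h1]
      exact hy)
    have h3 : FEi d hM x y.1 = 1 := FEh_inj d (fun j => toT_inj d (M j))
      (fun j => Subtype.val_injective) x (h2.trans (map_one _).symm)
    change lef _ _ _ _ x (FEi d hM x y.1) = 1
    rw [h3, map_one]


end bas

section ind

variable {X : Type}
variable [Finite X] (d : X)
variable {C : ∀ (G : Type) [Group G], Prop}

theorem St_step (hinj : S_INJ) (hC : CS C) (b : ℕ) (N : ℕ → ℕ)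
    (hN : ∀ r, r ≤ N r) (hΓ : C (Gm d (HH d b) (HH d (b + 1))))
    (hH : ∀ r, r < b + 2 → C (HH d (N r))) (h : St d C (N (b + 1)) (nx b N)) :
    St d C (b + 2) N := by
  obtain ⟨Q, _, α, c, e, hQ, hα, hc, he, h1, h2⟩ := h
  have hb1 : b + 1 ≤ N (b + 1) := hN (b + 1)
  have hbM : b < N (b + 1) := hb1
  have hnb : nx b N b = max (N b) (N (b + 1)) := by
    unfold nx
    rw [if_neg (lt_irrefl b), if_pos rfl]
  have hnlt : ∀ r, r < b → nx b N r = N r := fun r hr => if_pos hr
  have hle1 : HH d (b + 1) ≤ HH d (N (b + 1)) := HH_mono d hb1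
  have hle2 : HH d (b + 1) ≤ HH d (nx b N b) :=
    HH_mono d (hb1.trans (by rw [hnb]; exact le_max_right _ _))
  obtain ⟨f, hf1, hf2⟩ := Gm_univ d (HH d b) (HH d (b + 1))
    (α.comp (Subgroup.inclusion hle1))
    ((c ⟨b, hbM⟩).comp (Subgroup.inclusion (PH_mono d hle2)))
    (fun a p hp hap => (h1 ⟨b, hbM⟩ ⟨p.1, PH_mono d hle2 p.2⟩ ⟨a.1, hle1 a.2⟩ hp hap).symm)
  have key : ∀ r : {r : ℕ // r < b + 2}, ∃ (c' : PH d (HH d (N r)) →* Q)
      (e' : HH d (N r) →* Q), Function.Injective c' ∧ Function.Injective e' ∧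
      (∀ (p : PH d (HH d (N r))) (q : PH d (HH d (b + 1))), q.1 = p.1 →
        p.1 ∈ PH d (HH d r) → c' p = f (iP d _ _ q)) ∧
      (∀ (h : HH d (N r)) (g : HH d (b + 1)), g.1 = h.1 → h.1 ∈ HH d r →
        e' h = f (iA d _ _ g)) := by
    rintro ⟨r, hr⟩
    rcases Nat.lt_or_ge b r with hrb | hrb
    · have hrb' : r = b + 1 := by omega
      subst hrb'
      have hle3 : HH d (N (b + 1)) ≤ HH d (nx b N b) :=
        HH_mono d (by rw [hnb]; exact le_max_right _ _)
      refine ⟨(c ⟨b, hbM⟩).comp (Subgroup.inclusion (PH_mono d hle3)), α,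
        (hc _).comp (Subgroup.inclusion_injective _), hα, ?_, ?_⟩
      · intro p q hqp hp
        rw [hf2]
        exact congrArg (c ⟨b, hbM⟩) (Subtype.ext hqp.symm)
      · intro h g hgh hh
        rw [hf1]
        exact congrArg α (Subtype.ext hgh.symm)
    · have hrM : r < N (b + 1) := lt_of_le_of_lt hrb hbM
      have hle3 : HH d (N r) ≤ HH d (nx b N r) := by
        apply HH_mono d
        rcases hrb.lt_or_eq with h | h
        · rw [hnlt r h]
        · rw [h, hnb]
          exact le_max_left _ _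
      refine ⟨(c ⟨r, hrM⟩).comp (Subgroup.inclusion (PH_mono d hle3)),
        (e ⟨r, hrM⟩).comp (Subgroup.inclusion hle3),
        (hc _).comp (Subgroup.inclusion_injective _),
        (he _).comp (Subgroup.inclusion_injective _), ?_, ?_⟩
      · intro p q hqp hp
        rw [hf2]
        have hg : dT d (cr d) p.1 (cr d) ∈ HH d (N (b + 1)) :=
          HH_mono d (show r + 1 ≤ N (b + 1) by omega) ((pP d r).dir _ _ _ hp)
        have h3 := h1 ⟨r, hrM⟩ ⟨p.1, PH_mono d hle3 p.2⟩ ⟨_, hg⟩ hp rfl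
        have h4 := h1 ⟨b, hbM⟩ ⟨q.1, PH_mono d hle2 q.2⟩ ⟨_, hg⟩
          (by change q.1 ∈ _; rw [hqp]; exact PH_mono d (HH_mono d hrb) hp) (by
            change dT d (cr d) p.1 (cr d) = dT d (cr d) q.1 (cr d)
            rw [hqp])
        exact h3.trans h4.symm
      · intro h g hgh hh
        rw [hf1]
        exact h2 ⟨r, hrM⟩ ⟨h.1, hle3 h.2⟩ ⟨g.1, hle1 g.2⟩ hh hgh
  choose c' e' hc' he' h1' h2' using key
  have hD : Dat d (pP d b) (fun r : {r : ℕ // r < b + 2} => HH d r)
      (fun r : {r : ℕ // r < b + 2} => HH d (N r)) C 0 := by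
    refine ⟨Q, inferInstance, f, c', e', hQ, ?_, hc', he', h1', h2'⟩
    intro γ hγ
    rw [Kn_zero, Subgroup.mem_bot] at hγ
    rw [hγ, map_one]
  have hs := star_nxt (J := {r : ℕ // r < b + 2}) (R := fun r => HH d r.1)
    (M := fun r => HH d (N r.1)) d (pP d b) hinj hC hΓ
    (fun r => hH r.1 r.2) (fun r => HH_mono d (by have := r.2; omega))
    (fun r => HH_mono d (hN r.1)) (fun r => lc_HH d r.1) (fun r => lc_HH d _) hD
  rw [← HH_nxt] at hs
  exact hs

theorem St_one (hinj : S_INJ) (hC : CS C) (N : ℕ → ℕ)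
    (h1 : C (HH d 1)) (hH : C (HH d (N 0))) : St d C 1 N := by
  have hr : ∀ r : {r : ℕ // r < 1}, r.1 = 0 := fun r => by have := r.2; omega
  have hHr : ∀ r : {r : ℕ // r < 1}, HH d r = Fn X := fun r => by rw [hr r, HH_zero]
  have hP0 : Pair d (Fn X) (HH d 1) := by
    rw [HH_one]
    exact pair0 d
  obtain ⟨Q', _, α', c'', e'', hQ', h3, h4, h5, h6, h7⟩ := base_star
    (M := fun r : {r : ℕ // r < 1} => HH d (N r)) d hinj hC hP0 h1 (fun r => by
      rw [hr r]
      exact hH) (fun r => by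
      rw [← HH_zero d]
      exact HH_mono d (Nat.zero_le _))
  refine ⟨Q', inferInstance, α', c'', e'', hQ', h3, h4, h5, ?_, ?_⟩
  · intro r p g hp hg
    exact h6 r p g (PH_mono d (le_of_eq (hHr r)) hp) hg
  · intro r h g hh hg
    exact h7 r h g (le_of_eq (hHr r) hh) hg

/-- **all states are good** -/
theorem St_all (hinj : S_INJ) (hC : CS C) (n : ℕ)
    (hH : ∀ m ≤ n, C (HH d m)) (hΓ : ∀ b, b + 2 ≤ n → C (Gm d (HH d b) (HH d (b + 1)))) :
    ∀ s : ℕ × (ℕ → ℕ), 1 ≤ s.1 → s.1 ≤ n → (∀ r, r ≤ s.2 r) → (∀ r < s.1, s.2 r ≤ n) →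
      St d C s.1 s.2 := by
  refine lex_ind dg (n + 1) _ ?_
  rintro ⟨a, N⟩ ih h1 h2 h3 h4
  simp only at h1 h2 h3 h4 ⊢
  obtain rfl | ⟨b, rfl⟩ : a = 1 ∨ ∃ b, a = b + 2 := by
    rcases Nat.lt_or_ge a 2 with h | h
    · left; omega
    · right; exact ⟨a - 2, by omega⟩
  · exact St_one d hinj hC N (hH 1 h2) (hH _ (h4 0 (by omega)))
  · have hMn : N (b + 1) ≤ n := h4 (b + 1) (by omega)
    have hb1 : b + 1 ≤ N (b + 1) := h3 (b + 1)
    refine St_step d hinj hC b N h3 (hΓ b h2) (fun r hr => hH _ (h4 r hr)) ?_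
    refine ih (N (b + 1), nx b N) ⟨N (b + 1), by omega, dg_lt b N hb1,
      fun w hw _ => dg_eq b N hb1 w hw⟩ (by simp only; omega) hMn ?_ ?_
    · intro r
      simp only
      unfold nx
      split_ifs with h5 h6
      · exact h3 r
      · subst h6
        exact (h3 r).trans (le_max_left _ _)
      · exact le_rfl
    · intro r hr
      simp only at hr ⊢
      unfold nx
      split_ifs with h5 h6
      · exact h4 r (by omega)
      · exact max_le (h4 b (by omega)) hMn
      · omega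

/-- the cover is in the class -/
theorem C_cov (hinj : S_INJ) (hC : CS C) (b : ℕ)
    (hH : ∀ m ≤ b + 1, C (HH d m)) (hΓ : ∀ b', b' < b → C (Gm d (HH d b') (HH d (b' + 1)))) :
    C (Gm d (HH d b) (HH d (b + 1))) := by
  obtain ⟨Q, _, α, c, e, hQ, hα, hc, he, h1, h2⟩ := St_all d hinj hC (b + 1) hH
    (fun b' h => hΓ b' (by omega)) (b + 1, fun r => if r = b then b + 1 else r)
    (by simp only; omega) le_rfl (fun r => by simp only; split_ifs <;> omega)
    (fun r hr => by simp only at hr ⊢; split_ifs <;> omega)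
  have hb : (fun r => if r = b then b + 1 else r : ℕ → ℕ) b = b + 1 := if_pos rfl
  obtain ⟨c0, hc0⟩ : ∃ c0 : PH d (HH d (b + 1)) →* Q, ∀ (p : PH d (HH d (b + 1)))
      (g : HH d (b + 1)), p.1 ∈ PH d (HH d b) → g.1 = dT d (cr d) p.1 (cr d) → c0 p = α g := by
    have h3 := h1 ⟨b, Nat.lt_succ_self b⟩
    have h4 : ∀ m, m = b + 1 → ∀ c1 : PH d (HH d m) →* Q, (∀ (p : PH d (HH d m))
      (g : HH d (b + 1)), p.1 ∈ PH d (HH d b) → g.1 = dT d (cr d) p.1 (cr d) → c1 p = α g) →
      ∃ c0 : PH d (HH d (b + 1)) →* Q, ∀ (p : PH d (HH d (b + 1)))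
      (g : HH d (b + 1)), p.1 ∈ PH d (HH d b) → g.1 = dT d (cr d) p.1 (cr d) → c0 p = α g := by
      rintro _ rfl c1 h
      exact ⟨c1, h⟩
    exact h4 _ hb _ h3
  obtain ⟨f, hf1, hf2⟩ := Gm_univ d (HH d b) (HH d (b + 1)) α c0
    (fun a p hp hap => (hc0 p a hp hap).symm)
  -- the cover as a star product
  let k : ∀ _ : Unit, PH d (HH d b) →* HH d (b + 1) := fun _ =>
    (toT d (HH d b)).codRestrict (HH d (b + 1)) (fun p => (pP d b).dir _ _ _ p.2)
  let l : ∀ _ : Unit, PH d (HH d b) →* PH d (HH d (b + 1)) := fun _ =>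
    Subgroup.inclusion (PH_mono d (pP d b).le)
  have hsp : IsSP (L := fun _ : Unit => PH d (HH d (b + 1))) (E := fun _ : Unit => PH d (HH d b))
      k l (iA d (HH d b) (HH d (b + 1))) (fun _ => iP d (HH d b) (HH d (b + 1))) := by
    refine ⟨fun _ p => ?_, ?_, ?_⟩
    · exact iA_eq_iP d _ _ _ _ p.2 rfl
    · rw [eq_top_iff]
      rintro γ -
      induction γ using Gm_induction d (HH d b) (HH d (b + 1)) with
      | hA a => exact Subgroup.subset_closure (Or.inl ⟨a, rfl⟩)
      | hP p => exact Subgroup.subset_closure (Or.inr (Set.mem_iUnion.2 ⟨(), p, rfl⟩))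
      | hm x y hx hy => exact mul_mem hx hy
    · intro G _ f g h
      obtain ⟨F, hF1, hF2⟩ := Gm_univ d (HH d b) (HH d (b + 1)) f (g ()) (fun a p hp hap => by
        have h5 := h () ⟨p.1, hp⟩
        have h6 : k () ⟨p.1, hp⟩ = a := Subtype.ext hap.symm
        rw [h6] at h5
        exact h5)
      exact ⟨F, hF1, fun _ => hF2⟩
  have hki : ∀ j, Function.Injective (k j) := by
    intro j x y hxy
    exact toT_inj d _ (congrArg Subtype.val hxy)
  obtain ⟨ha, hb'⟩ := hinj _ _ _ _ _ _ _ _ _ hsp hki (fun _ => Subgroup.inclusion_injective _)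
  refine hC.star _ _ _ _ _ _ _ _ _ hsp ha hb' (hH (b + 1) le_rfl)
    (fun _ => Pool.Agent.Y442.LA.t_phc C hC.base X d _ (hH (b + 1) le_rfl)) fun j => ?_
  refine ⟨Q, inferInstance, f, hQ, fun p hp => ?_⟩
  rw [hf1] at hp
  rw [hα (hp.trans (map_one _).symm), map_one]

theorem C_HH_all (hinj : S_INJ) (hC : CS C) (h0 : C (HH d 0))
    (h1 : C (HH d 1)) : ∀ n, (∀ m ≤ n + 1, C (HH d m)) ∧
      ∀ b < n, C (Gm d (HH d b) (HH d (b + 1))) := by
  intro n
  induction n with
  | zero =>
    refine ⟨fun m hm => ?_, fun b hb => absurd hb (Nat.not_lt_zero b)⟩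
    obtain rfl | rfl : m = 0 ∨ m = 1 := by omega
    · exact h0
    · exact h1
  | succ n ih =>
    have h2 := C_cov d hinj hC n ih.1 ih.2
    have h3 : C (HH d (n + 2)) := by
      rw [HH_nxt]
      have h4 : C (Gm d (HH d n) (HH d (n + 1)) ⧸ (tau (psi d (pP d n))).ker) := by
        refine t_lim Pool.Agent.Y812.SS.t_wr C hC.base X _ inferInstance (psi d (pP d n)) h2 _ ?_
        intro γ
        rw [MonoidHom.mem_ker]
        exact ⟨dies_of_tau d (pP d n), tau_of_dies _⟩
      exact hC.base.of_injective _ _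
        (QuotientGroup.quotientKerEquivRange (tau (psi d (pP d n)))).symm.toMonoidHom
        (QuotientGroup.quotientKerEquivRange (tau (psi d (pP d n)))).symm.injective h4
    refine ⟨fun m hm => ?_, fun b hb => ?_⟩
    · rcases Nat.lt_or_ge m (n + 2) with h | h
      · exact ih.1 m (by omega)
      · have : m = n + 2 := by omega
        rw [this]
        exact h3
    · rcases Nat.lt_or_ge b n with h | h
      · exact ih.2 b h
      · have : b = n := by omega
        rw [this]
        exact h2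


end ind

section fin

variable {X : Type}
variable [Finite X] (d : X)

/-- **the theorem** -/
theorem pol_closed (hinj : S_INJ) (hpol : S_POL)
    (C : ∀ (G : Type) [Group G], Prop) (hC : CS C)
    (X : Type) (hX : Finite X) (G : Type) [Group G] (f : G →* Equiv.Perm (List X))
    (hf : Function.Injective f) (S : Set G) (hS : Subgroup.closure S = ⊤)
    (hT : ∀ s ∈ S, IsTree (f s))
    (hB : ∀ s ∈ S, (∃ n, IsPol n (f s)) ∨ ((Sections (f s)).Finite ∧ PolActivity (f s))) :
    C G := by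
  have hmem : ∀ g, f g ∈ T X := by
    have h1 : Subgroup.closure S ≤ (T X).comap f := by
      rw [Subgroup.closure_le]
      exact hT
    intro g
    have h2 : g ∈ Subgroup.closure S := by rw [hS]; exact Subgroup.mem_top g
    exact h1 h2
  rcases isEmpty_or_nonempty X with hE | ⟨⟨d⟩⟩
  · have h1 : ∀ g : G, f g = 1 := by
      intro g
      apply Equiv.ext
      intro w
      cases w with
      | nil => exact apply_nil (hmem g)
      | cons x _ => exact (hE.false x).elim
    have h2 : Subsingleton G := ⟨fun a b => hf ((h1 a).trans (h1 b).symm)⟩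
    exact finite_closed C hC.base Pool.Agent.Y430.SS.t_lf G
  · let f' : G →* T X := f.codRestrict (T X) hmem
    have hf' : Function.Injective f' := fun a b h => hf (congrArg Subtype.val h)
    have h0 : C (HH d 0) := by
      rw [HH_zero]
      exact Pool.Agent.Y430.SS.t_lf C hC.base _ lf_Fn
    have h1 : C (HH d 1) := by
      rw [HH_one]
      exact HB_closed d C hC.base Pool.Agent.Y812.SS.t_wr Pool.Agent.Y430.SS.t_lf
        Pool.Agent.Y430.SS.t_pow Pool.Agent.Y179.SS.t_free (t_lim Pool.Agent.Y812.SS.t_wr)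
        Pool.Agent.Y430.SS.t_union
    have hCH : ∀ n, C (HH d n) := fun n =>
      (C_HH_all d hinj hC h0 h1 n).1 n (Nat.le_succ n)
    let K : ℕ → Subgroup G := fun N => (HH d N).comap f'
    have hK : Monotone K := fun m n h g hg => HH_mono d h hg
    have hKS : ∀ s ∈ S, ∃ N, s ∈ K N := by
      intro s hs
      obtain ⟨n, hn⟩ : ∃ n, IsPol n (f s) := by
        rcases hB s hs with h | ⟨h, h'⟩
        · exact h
        · exact hpol X hX (f s) (hT s hs) h h'
      exact ⟨n + 1, pol_mem d n (f s) (hT s hs) hn⟩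
    let U : Subgroup G :=
      { carrier := {g | ∃ N, g ∈ K N}
        one_mem' := ⟨0, one_mem _⟩
        mul_mem' := by
          rintro a b ⟨m, hm⟩ ⟨n, hn⟩
          exact ⟨max m n, mul_mem (hK (le_max_left m n) hm) (hK (le_max_right m n) hn)⟩
        inv_mem' := by
          rintro a ⟨m, hm⟩
          exact ⟨m, inv_mem hm⟩ }
    have hU : Subgroup.closure S ≤ U := by
      rw [Subgroup.closure_le]
      exact hKS
    have hall : ∀ g, ∃ N, g ∈ K N := by
      intro g
      have h2 : g ∈ Subgroup.closure S := by rw [hS]; exact Subgroup.mem_top g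
      exact hU h2
    refine Pool.Agent.Y430.SS.t_union C hC.base G K hK hall ?_
    intro N
    let φ : K N →* HH d N :=
      { toFun := fun g => ⟨f' g.1, g.2⟩
        map_one' := Subtype.ext (map_one f')
        map_mul' := fun a b => Subtype.ext (map_mul f' a.1 b.1) }
    refine hC.base.of_injective _ _ φ ?_ (hCH N)
    intro a b hab
    exact Subtype.ext (hf' (congrArg Subtype.val hab))


end fin

end Pool.Agent.N59.TT.PA
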